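import Pool.Agent.Q56.WL.Box

/-!
# The Frobenius angles at `s` consecutive primes: all boxes, with square-root error against the finite-field model, for ALL
elliptic curves with coefficients in windows near powers with non-integral exponents

Let `E : Y ^ 2 = X ^ 3 + m 0 X + m 1`, where `m 0`, `m 1` are arbitrary integers in the windows of length `y ^ V` around the real
numbers `β l + ω l * i (μ l) ^ ex l` (`l = 0, 1`), where `i = (i_1, ..., i_M)` runs through `{1, ..., x} ^ M`, the exponents
`ex l > 1` are not integers, and `ex 0 ≠ ex 1` if the two coefficients depend on the same index (for instance `M = 1`: all curves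
with coefficients close to `(i ^ (3/2), i ^ (5/2))`). For almost all index vectors and ALL curves with coefficients in the windows
the number of the `k < n` for which the angles at the primes `p_k, ..., p_(k + s - 1)` are in a box differs from the sum of the
products of the proportions of the curves modulo these primes by at most `n ^ (1 / 2 + δ)`, for all boxes simultaneously and for
all `n` from `y` to `x ^ c`.

Proof. The moments of sums of functions modulo pairwise coprime moduli (here the products of `s` consecutive primes), over all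
integer points of the windows, are bounded by the moments over complete systems of residues (`Pool.Agent.Q56.WL.ker`, with
products of Fejér kernels), if the exponential sums over the real points with frequencies of small denominators are small (van
der Corput's method, `Pool.Agent.Q56.WL.single`).
-/

set_option autoImplicit false

namespace Pool.Agent.Results.MP_29be01_nt.NearPowers

open Finset Pool.Agent.Q56.WL

/-- The number of the solutions of `Y ^ 2 = X ^ 3 + m 0 X + m 1` modulo `p`. -/
def points (p : ℕ) (m : Fin 2 → ℕ) : ℕ :=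
  ((range p ×ˢ range p).filter (fun xy => xy.2 ^ 2 % p = (xy.1 ^ 3 + m 0 * xy.1 + m 1) % p)).card

/-- The Frobenius angle in `[0, 1]` of the curve `Y ^ 2 = X ^ 3 + m 0 X + m 1` at the prime `p`: it is `θ` with
`2 p ^ (1 / 2) cos (π θ) = p + 1 - #E(F_p) = p - points p m`, and `1 / 2` if `p` divides `2 (4 (m 0) ^ 3 + 27 (m 1) ^ 2)`. -/
noncomputable def angle (p : ℕ) (m : Fin 2 → ℕ) : ℝ :=
  if p ∣ 2 * (4 * m 0 ^ 3 + 27 * m 1 ^ 2) then 1 / 2
  else Real.arccos ((((p : ℤ) - points p m : ℤ) : ℝ) / (2 * Real.sqrt p)) / Real.pi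

open Classical in
/-- The number of the indices `k < n` for which the angles at the `s` consecutive primes with the indices `k, ..., k + s - 1` (the
primes are numbered from `0`) are in the box with the sides `[u i, v i)`. -/
noncomputable def boxCount (s : ℕ) (u v : Fin s → ℝ) (n : ℕ) (m : Fin 2 → ℕ) : ℕ :=
  ((range n).filter (fun k => ∀ i : Fin s, u i ≤ angle (Nat.nth Nat.Prime (k + i)) m ∧ angle (Nat.nth Nat.Prime (k + i)) m < v i)).card

open Classical in
/-- The proportion of the pairs of coefficients modulo `p` for which the angle is in `[u, v)`. -/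
noncomputable def proportion (p : ℕ) (u v : ℝ) : ℝ :=
  (((Fintype.piFinset (fun _ : Fin 2 => range p)).filter (fun n => u ≤ angle p n ∧ angle p n < v)).card : ℝ) / (p : ℝ) ^ 2

/-- The expected number: the sum over the indices `k < n` of the product of the proportions at the `s` primes. -/
noncomputable def boxModel (s : ℕ) (u v : Fin s → ℝ) (n : ℕ) : ℝ :=
  ∑ k ∈ range n, ∏ i : Fin s, proportion (Nat.nth Nat.Prime (k + i)) (u i) (v i)

/-- For all boxes the number of the indices `k < n` differs from the expected number by at most `n ^ (1 / 2 + δ)`. -/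
def Good (s : ℕ) (δ : ℝ) (_ : Unit) (n : ℕ) (m : Fin 2 → ℕ) : Prop :=
  ∀ u v : Fin s → ℝ, |(boxCount s u v n m : ℝ) - boxModel s u v n| ≤ (n : ℝ) ^ (1 / 2 + δ)

lemma points_mod (p : ℕ) (m : Fin 2 → ℕ) : points p (fun i => m i % p) = points p m := by
  unfold points
  congr 1
  apply filter_congr
  intro xy _
  have h : xy.1 ^ 3 + m 0 % p * xy.1 + m 1 % p ≡ xy.1 ^ 3 + m 0 * xy.1 + m 1 [MOD p] :=
    (((Nat.mod_modEq (m 0) p).mul_right xy.1).add_left (xy.1 ^ 3)).add (Nat.mod_modEq (m 1) p)
  rw [h]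

/-- the angles as functions with few values -/
noncomputable def ang : Pool.Agent.TH894.NF.Ang 2 where
  a := angle
  per := by
    intro p m
    unfold angle
    rw [points_mod]
    have h : 2 * (4 * (m 0 % p) ^ 3 + 27 * (m 1 % p) ^ 2) ≡ 2 * (4 * m 0 ^ 3 + 27 * m 1 ^ 2) [MOD p] :=
      ((((Nat.mod_modEq (m 0) p).pow 3).mul_left 4).add (((Nat.mod_modEq (m 1) p).pow 2).mul_left 27)).mul_left 2
    have h2 := h.dvd_iff (dvd_refl p)
    by_cases h3 : p ∣ 2 * (4 * m 0 ^ 3 + 27 * m 1 ^ 2)
    · rw [if_pos h3, if_pos (h2.2 h3)]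
    · rw [if_neg h3, if_neg (fun h4 => h3 (h2.1 h4))]
  le := by
    intro p m
    unfold angle
    split_ifs
    · norm_num
    · rw [div_le_one Real.pi_pos]
      exact Real.arccos_le_pi _
  W := fun x => insert (1 / 2) (((range (x + 1)) ×ˢ (Icc (-((x : ℤ) ^ 2)) ((x : ℤ) ^ 2))).image
    (fun pt : ℕ × ℤ => Real.arccos ((pt.2 : ℝ) / (2 * Real.sqrt pt.1)) / Real.pi))
  mem := by
    intro x p m _ hpx
    unfold angle
    split_ifs
    · exact mem_insert_self _ _
    · apply mem_insert_of_mem
      rw [mem_image]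
      refine ⟨(p, (p : ℤ) - points p m), ?_, rfl⟩
      rw [mem_product, mem_range, mem_Icc]
      refine ⟨by show p < x + 1; omega, ?_, ?_⟩
      · show -((x : ℤ) ^ 2) ≤ (p : ℤ) - points p m
        have h2 : points p m ≤ p * p := by
          unfold points
          refine (card_filter_le _ _).trans ?_
          rw [card_product, card_range]
        have h3 : p * p ≤ x ^ 2 := by rw [sq]; exact Nat.mul_le_mul hpx hpx
        have h5 : (points p m : ℤ) ≤ (x : ℤ) ^ 2 := by exact_mod_cast h2.trans h3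
        have h8 : (0 : ℤ) ≤ (p : ℤ) := Nat.cast_nonneg _
        linarith
      · show (p : ℤ) - points p m ≤ (x : ℤ) ^ 2
        have h4 : p ≤ x ^ 2 := hpx.trans (Nat.le_self_pow (by norm_num) x)
        have h6 : (p : ℤ) ≤ (x : ℤ) ^ 2 := by exact_mod_cast h4
        have h7 : (0 : ℤ) ≤ points p m := Nat.cast_nonneg _
        linarith
  e := 5
  card := by
    intro x hx
    have hxr : (3 : ℝ) ≤ x := by exact_mod_cast hx
    have h1 : ((insert (1 / 2 : ℝ) (((range (x + 1)) ×ˢ (Icc (-((x : ℤ) ^ 2)) ((x : ℤ) ^ 2))).image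
        (fun pt : ℕ × ℤ => Real.arccos ((pt.2 : ℝ) / (2 * Real.sqrt pt.1)) / Real.pi))).card : ℝ) ≤ (x + 1) * (2 * (x : ℝ) ^ 2 + 1) + 1 := by
      have h2 := card_insert_le (1 / 2 : ℝ) (((range (x + 1)) ×ˢ (Icc (-((x : ℤ) ^ 2)) ((x : ℤ) ^ 2))).image
        (fun pt : ℕ × ℤ => Real.arccos ((pt.2 : ℝ) / (2 * Real.sqrt pt.1)) / Real.pi))
      have h3 : (((range (x + 1)) ×ˢ (Icc (-((x : ℤ) ^ 2)) ((x : ℤ) ^ 2))).image
        (fun pt : ℕ × ℤ => Real.arccos ((pt.2 : ℝ) / (2 * Real.sqrt pt.1)) / Real.pi)).card ≤ (x + 1) * ((x : ℤ) ^ 2 + 1 - -((x : ℤ) ^ 2)).toNat := by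
        refine card_image_le.trans ?_
        rw [card_product, card_range, Int.card_Icc]
      have e2 : (((((x : ℤ) ^ 2 + 1 - -((x : ℤ) ^ 2)).toNat : ℕ)) : ℝ) = 2 * (x : ℝ) ^ 2 + 1 := by
        have e3 : ((((((x : ℤ) ^ 2 + 1 - -((x : ℤ) ^ 2)).toNat : ℕ)) : ℤ) : ℝ) = (((x : ℤ) ^ 2 + 1 - -((x : ℤ) ^ 2) : ℤ) : ℝ) := by
          rw [Int.toNat_of_nonneg (by have : (0 : ℤ) ≤ (x : ℤ) ^ 2 := by positivity
                                      linarith)]
        push_cast at e3
        rw [e3]
        ring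
      have h4 : ((((range (x + 1)) ×ˢ (Icc (-((x : ℤ) ^ 2)) ((x : ℤ) ^ 2))).image
        (fun pt : ℕ × ℤ => Real.arccos ((pt.2 : ℝ) / (2 * Real.sqrt pt.1)) / Real.pi)).card : ℝ) ≤ (x + 1) * (2 * (x : ℝ) ^ 2 + 1) := by
        rw [← e2]
        exact_mod_cast h3
      have h5 : ((insert (1 / 2 : ℝ) (((range (x + 1)) ×ˢ (Icc (-((x : ℤ) ^ 2)) ((x : ℤ) ^ 2))).image
        (fun pt : ℕ × ℤ => Real.arccos ((pt.2 : ℝ) / (2 * Real.sqrt pt.1)) / Real.pi))).card : ℝ) ≤
        ((((range (x + 1)) ×ˢ (Icc (-((x : ℤ) ^ 2)) ((x : ℤ) ^ 2))).image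
        (fun pt : ℕ × ℤ => Real.arccos ((pt.2 : ℝ) / (2 * Real.sqrt pt.1)) / Real.pi)).card : ℝ) + 1 := by exact_mod_cast h2
      linarith
    refine (add_le_add_left h1 1).trans ?_
    have e1 : (x : ℝ) + 1 ≤ x * x := by nlinarith
    have e2 : 2 * (x : ℝ) ^ 2 + 1 + 1 ≤ (x : ℝ) ^ 3 := by nlinarith [sq_nonneg (x : ℝ)]
    have e3 : ((x : ℝ) + 1) * (2 * (x : ℝ) ^ 2 + 1 + 1) ≤ (x * x) * (x : ℝ) ^ 3 := mul_le_mul e1 e2 (by positivity) (by positivity)
    nlinarith

/-- Let the exponents `ex`, the coefficients `ω` and the map `μ` from the two coefficients of the curve to the `M` indices be as in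
`Setting`. For all `s ≥ 1`, `δ > 0`, `A` and `V` the property `Good s δ n m` holds for almost all index vectors and ALL curves with
coefficients `m` in the windows of length `y ^ V` (`ForAlmostAll`), uniformly in the shifts. -/
theorem result (s : ℕ) (hs : 1 ≤ s) (M : ℕ) (ex ω : Fin 2 → ℝ) (μ : Fin 2 → Fin M) (hset : Setting ex ω μ)
    (δ : ℝ) (hδ : 0 < δ) (A V : ℕ) : ForAlmostAll ex ω μ A V (Good s δ) := by
  classical
  refine (boxes_near ang hset s hs δ hδ A V).mono 0 ?_
  intro _ n m _ h u v
  have h1 := h (fun i => (u i, v i))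
  have hprop : ∀ (p : ℕ) (u v : ℝ), Pool.Agent.TH894.NE.Pr 2 p (fun n => u ≤ angle p n ∧ angle p n < v) = proportion p u v := by
    intro p u v
    unfold Pool.Agent.TH894.NE.Pr proportion Pool.Agent.TH894.NE.box
    refine congrArg (fun c : ℕ => (c : ℝ) / (p : ℝ) ^ 2) (congrArg card ?_)
    ext n
    simp only [mem_filter, Fintype.mem_piFinset]
  have hmodel : Pool.Agent.TH894.NF.ex ang s (fun i => (u i, v i)) n = boxModel s u v n := by
    unfold Pool.Agent.TH894.NF.ex boxModel
    refine sum_congr rfl fun k _ => ?_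
    rw [Pool.Agent.TH894.NF.Pr_prod]
    exact prod_congr rfl fun i _ => hprop _ _ _
  have hcount : ∀ m : Fin 2 → ℕ, Pool.Agent.TH894.NF.cnt ang s (fun i => (u i, v i)) n m = boxCount s u v n m := by
    intro m
    unfold Pool.Agent.TH894.NF.cnt boxCount Pool.Agent.TH894.NF.Bx
    refine congrArg card ?_
    ext k
    simp only [mem_filter]
    exact Iff.rfl
  rw [hmodel, hcount] at h1
  exact h1

end Pool.Agent.Results.MP_29be01_nt.NearPowers
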