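import Mathlib
import Pool.Agent.Q21.DW.Dy
import Pool.Agent.Results.MP_29be01_nt.PolynomialFamilies

set_option autoImplicit false

/-! # The Frobenius angles at consecutive primes of the curves given by the digits of a real number

For every `s` and `δ > 0` there are `κ > 0` and `C` such that for almost every real number `α` and ALL
one-parameter families `Y² = X³ + a(T) X + b(T)`, `a, b ∈ ℤ[T]`, the following holds for ALL members
`T = n` of the family where `n` is written by `k` consecutive digits of `α` in some base `g`, after one of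
the first `g ^ (t k)` places, `t < κ`, if `k` is large: at all lengths `K ≤ n ^ κ` the discrepancy of the
`s`-tuples of Frobenius angles at consecutive primes from the finite-field model is at most
`C K ^ (-1/2 + δ) (1 + log n) ^ (1/2)`.  With Hausdorff dimensions of the exceptional sets of `α`, and the
same for the integers near the multiples of `α`. -/

namespace Pool.Agent.Results.MP_29be01_nt.RandomParameters

open Finset Polynomial

/-- The number of the solutions `(x, y)` of `y² = x³ + A x + B` modulo `p`. -/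
def points (p : ℕ) (A B : ℤ) : ℕ :=
  ((range p ×ˢ range p).filter
    (fun xy : ℕ × ℕ => (p : ℤ) ∣ (xy.2 : ℤ) ^ 2 - ((xy.1 : ℤ) ^ 3 + A * xy.1 + B))).card

/-- The Frobenius angle in `[0, 1]` of the curve `y² = x³ + A x + B` at the prime `p`: it is `θ` with
`2 p ^ (1 / 2) cos (π θ) = p + 1 - #E(F_p) = p - points p A B`, and `1 / 2` if `p ∣ 2 (4 A³ + 27 B²)`. -/
noncomputable def angle (A B : ℤ) (p : ℕ) : ℝ :=
  if (p : ℤ) ∣ 2 * (4 * A ^ 3 + 27 * B ^ 2) then 1 / 2
  else Real.arccos (((p : ℝ) - points p A B) / (2 * Real.sqrt p)) / Real.pi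

open Classical in
/-- The number of the `k < K` such that the angles of the curve `y² = x³ + A x + B` at the `s` consecutive primes with the
numbers `k, ..., k + s - 1` (the primes are numbered from `0`) are in `I 0, ..., I (s - 1)`. -/
noncomputable def boxCount {s : ℕ} (A B : ℤ) (I : Fin s → Set ℝ) (K : ℕ) : ℕ :=
  ((range K).filter (fun k => ∀ i : Fin s, angle A B (Nat.nth Nat.Prime (k + i)) ∈ I i)).card

open Classical in
/-- The proportion of the residues `t` modulo `p` for which the angle of `y² = x³ + a(t) x + b(t)` at `p` is in `S`. -/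
noncomputable def proportion (a b : ℤ[X]) (p : ℕ) (S : Set ℝ) : ℝ :=
  ((range p).filter (fun t : ℕ => angle (a.eval (t : ℤ)) (b.eval (t : ℤ)) p ∈ S)).card / p

/-- The expected number: the sum over `k < K` of the product of the proportions at the `s` primes. -/
noncomputable def boxModel {s : ℕ} (a b : ℤ[X]) (I : Fin s → Set ℝ) (K : ℕ) : ℝ :=
  ∑ k ∈ range K, ∏ i : Fin s, proportion a b (Nat.nth Nat.Prime (k + i)) (I i)

/-- The curve `y² = x³ + a(n) x + b(n)` has small discrepancies at all lengths `K ≤ n ^ κ`: for all boxes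
`I` the number of the `k < K` with the `s` consecutive angles from `k` on in `I` differs from the expected
number by at most `C K ^ (1 / 2 + δ) (1 + log n) ^ (1 / 2)`. -/
def Regular (s : ℕ) (δ κ C : ℝ) (ab : ℤ[X] × ℤ[X]) (n : ℕ) : Prop :=
  ∀ K : ℕ, (K : ℝ) ≤ (n : ℝ) ^ κ → ∀ I : Fin s → Set ℝ, (∀ i, (I i).OrdConnected) →
    |(boxCount (ab.1.eval (n : ℤ)) (ab.2.eval (n : ℤ)) I K : ℝ) - boxModel ab.1 ab.2 I K| ≤
      C * ((K : ℝ) ^ (1 / 2 + δ) * √(1 + Real.log n))

section

instance countable_poly : Countable ℤ[X] := by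
  rw [← Cardinal.mk_le_aleph0_iff]
  exact Polynomial.cardinalMk_le_max.trans (by simp)

lemma sqrt_le {n N : ℕ} (hn : 1 ≤ n) (hN : N < 2 * n) :
    √(1 + Real.log N) ≤ 2 * √(1 + Real.log n) := by
  have hn0 : (1 : ℝ) ≤ n := by exact_mod_cast hn
  have hl0 : 0 ≤ Real.log n := Real.log_nonneg hn0
  have h1 : Real.log N ≤ Real.log 2 + Real.log n := by
    rcases Nat.eq_zero_or_pos N with h | h
    · rw [h, Nat.cast_zero, Real.log_zero]
      have := Real.log_nonneg (show (1 : ℝ) ≤ 2 by norm_num)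
      linarith
    · rw [← Real.log_mul (by norm_num) (by linarith)]
      refine Real.log_le_log (by exact_mod_cast h) ?_
      exact_mod_cast hN.le
  have h2 : Real.log 2 ≤ 1 := by
    have := Real.log_two_lt_d9
    linarith
  have h3 : 1 + Real.log N ≤ 4 * (1 + Real.log n) := by linarith
  calc √(1 + Real.log N) ≤ √(4 * (1 + Real.log n)) := Real.sqrt_le_sqrt h3
    _ = √4 * √(1 + Real.log n) := Real.sqrt_mul (by norm_num) _
    _ = 2 * √(1 + Real.log n) := by
        rw [show (4 : ℝ) = 2 ^ 2 by norm_num, Real.sqrt_sq (by norm_num)]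

end

/-- **Theorem.** Let `s ≥ 1` and `δ > 0`. There are `0 < κ ≤ 1` and `C` such that, in the sense of
`RandomReals (1 - κ)` (digits and dilates of almost all real numbers `α`, with Hausdorff dimensions), for all
families `(a, b)` the curve `y² = x³ + a(n) x + b(n)` is `Regular`. -/
theorem result (s : ℕ) (hs : 1 ≤ s) (δ : ℝ) (hδ : 0 < δ) :
    ∃ κ C : ℝ, 0 < κ ∧ κ ≤ 1 ∧ 0 < C ∧
      Pool.Agent.Q21.DW.RandomReals (1 - κ) (Regular s δ κ C) := by
  obtain ⟨κ₀, C, hκ0, hC, H⟩ := PolynomialFamilies.result s hs δ hδ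
  set κ : ℝ := min κ₀ 1 with hκ
  have hκ1 : 0 < κ := lt_min hκ0 one_pos
  refine ⟨κ, 2 * C, hκ1, min_le_right _ _, by positivity, ?_⟩
  refine Pool.Agent.Q21.DW.randomReals_of (B := fun ab n => ¬ Regular s δ κ (2 * C) ab n)
    (by linarith [min_le_right κ₀ (1 : ℝ)]) (by linarith) (fun ab => ?_)
    (fun ab n _ h2 => not_not.1 h2)
  refine Pool.Agent.Q21.DW.ps_dyadic' (by linarith [min_le_right κ₀ (1 : ℝ)]) fun t ht => ?_
  refine ⟨C, 1, fun N _ hN => ?_⟩
  have hN1 : (1 : ℝ) ≤ N := by exact_mod_cast hN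
  obtain ⟨E, hE1, hE2⟩ := H ab.1 ab.2 N hN
  have hsub : ({n : ℕ | 1 ≤ n ∧ n ≤ N ∧ N < 2 * n ∧ ¬ Regular s δ κ (2 * C) ab n} : Set ℕ) ⊆
      (E : Set ℕ) := by
    rintro n ⟨h1, h2, h3, h4⟩
    by_contra hnE
    apply h4
    intro K hK I hI
    have hn1 : (1 : ℝ) ≤ n := by exact_mod_cast h1
    have h5 : (K : ℝ) ≤ (N : ℝ) ^ κ₀ := by
      refine hK.trans ?_
      calc (n : ℝ) ^ κ ≤ (N : ℝ) ^ κ := Real.rpow_le_rpow (by linarith) (by exact_mod_cast h2) hκ1.le
        _ ≤ (N : ℝ) ^ κ₀ := Real.rpow_le_rpow_of_exponent_le hN1 (min_le_left _ _)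
    refine (hE2 n h2 (fun h => hnE (Finset.mem_coe.2 h)) K h5 I hI).trans ?_
    have h6 := sqrt_le h1 h3
    calc C * ((K : ℝ) ^ (1 / 2 + δ) * √(1 + Real.log N))
        ≤ C * ((K : ℝ) ^ (1 / 2 + δ) * (2 * √(1 + Real.log n))) := by gcongr
      _ = _ := by ring
  have h7 := Set.ncard_le_ncard hsub (Finset.finite_toSet _)
  rw [Set.ncard_coe_finset] at h7
  calc _ ≤ (E.card : ℝ) := by exact_mod_cast h7
    _ ≤ C * (N : ℝ) ^ (1 - κ₀) := hE1
    _ ≤ C * (N : ℝ) ^ t := by
        refine mul_le_mul_of_nonneg_left (Real.rpow_le_rpow_of_exponent_le hN1 ?_) hC.le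
        linarith [min_le_left κ₀ (1 : ℝ)]

end Pool.Agent.Results.MP_29be01_nt.RandomParameters
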