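import Pool.Agent.Results.MP_29be01_nt.VectorsOfTwists
import Pool.Agent.Q319.DR.Twist

/-!
# Consecutive Frobenius angles: ALL quadratic twists in windows at the multiples of almost every real number

Let `s ≥ 1`, `κ ≥ 0` and `ε > 0`. The angle law for the twist by `D ≠ 0` at `x` says: for all curves
`E : y² = x³ + Ax + B` with `|A|, |B| ≤ x ^ κ`, all progressions `a mod q` with `q, a ≤ x` and all boxes `R = R_1 × … × R_s`
of intervals, the number of the `s`-tuples of consecutive primes `p ≤ x` of the progression (of good reduction) for which the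
angles of `E^D` are in the box is equal to the expected number after random reflections `y ↦ 1 - y` of the angles of `E`, up
to an error of at most `√H x ^ ε`, where `H` is the number of the tuples for which the angles of `E` are in the box after
suitable reflections.

Let `0 < θ < 1`. We show that there are `C` and `c > 0` such that for all large `N` and all real numbers `y` with
`N ^ (1 - θ) ≤ y ≤ 2 N ^ (1 - θ)` outside a set of measure at most `N ^ (1 - θ - c)`, for all `k ≤ N ^ θ` but at most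
`N ^ (θ - c)`, the angle law holds for ALL `D ≠ 0` with `||D| - k y| ≤ N ^ c` at all `x` with `log ^ C N ≤ x ≤ N ^ c`.

From Mathlib: `volume`: the Lebesgue measure. The law for almost all twists, with the definitions of `boxCount`, `hitCount`,
`boxMean` and `prog`, is from the file `VectorsOfTwists` of the same problem (a hand-in of helper233); the count of the
elements of arbitrary sets of integers in windows at multiples of real numbers is from the starting files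
(`Pool.Agent.H438R2.DL`). `twistExceptions` is defined in `Pool.Agent.Q319.DR.Twist`.
-/

set_option autoImplicit false

namespace Pool.Agent.Results.MP_29be01_nt.TwistsAtRealMultiples

open MeasureTheory Pool.Agent.Q233.TL Pool.Agent.Q233.TL.Tup Pool.Agent.Results.MP_29be01_nt.VectorsOfTwists

/-- The angle law fails for the twist by `D` at `x`. -/
def Fails (s : ℕ) (κ ε : ℝ) (x : ℕ) (D : ℤ) : Prop :=
  ∃ A B : ℤ, (|(A : ℝ)| ≤ (x : ℝ) ^ κ ∧ |(B : ℝ)| ≤ (x : ℝ) ^ κ) ∧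
    ∃ q a : ℕ, q ≤ x ∧ a ≤ x ∧ ∃ R : Fin s → Set ℝ, (∀ i, (R i).OrdConnected) ∧
      √(hitCount (fun _ : Fin 1 => A) (fun _ => B) (fun z => R z.1) (prog q a x) : ℝ) * (x : ℝ) ^ ε <
        |(boxCount (fun _ : Fin 1 => A * D ^ 2) (fun _ => B * D ^ 3) (fun z => R z.1) (prog q a x) : ℝ) -
          boxMean (fun _ : Fin 1 => A) (fun _ => B) (fun z => R z.1) (prog q a x)|

/-- Let `s ≥ 1`, `κ ≥ 0`, `ε > 0` and `0 < θ < 1`. There are `C, c > 0` such that for all large `N` there is a set `E` of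
measure at most `N ^ (1 - θ - c)` such that for all real `y` with `N ^ (1 - θ) ≤ y ≤ 2 N ^ (1 - θ)` which are not in `E`, for
all `k ≤ N ^ θ` but at most `N ^ (θ - c)`, the angle law holds for ALL `D ≠ 0` with `||D| - k y| ≤ N ^ c` at all `x` with
`log ^ C N ≤ x ≤ N ^ c`. -/
theorem result (s : ℕ) (hs : 0 < s) (κ ε : ℝ) (hκ : 0 ≤ κ) (hε : 0 < ε) (θ : ℝ) (hθ : 0 < θ) (hθ1 : θ < 1) :
    ∃ C c : ℝ, 0 < C ∧ 0 < c ∧ ∃ N₀ : ℕ, ∀ N : ℕ, N₀ ≤ N →
      ∃ E : Set ℝ, MeasurableSet E ∧ volume E ≤ ENNReal.ofReal ((N : ℝ) ^ (1 - θ - c)) ∧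
        ∀ y : ℝ, (N : ℝ) ^ (1 - θ) ≤ y → y ≤ 2 * (N : ℝ) ^ (1 - θ) → y ∉ E →
          (Pool.Agent.Q319.DR.twistExceptions (Fails s κ ε) ((N : ℝ) ^ θ) y ((N : ℝ) ^ c) (Real.log N ^ C)
            ((N : ℝ) ^ c) : ℝ) ≤ (N : ℝ) ^ (θ - c) := by
  classical
  refine Pool.Agent.Q319.DR.twist_windows (Fails s κ ε) ?_ θ hθ hθ1
  obtain ⟨C, c, hC, hc, N₀, h⟩ := VectorsOfTwists.result s 1 hs κ ε hκ hε
  refine ⟨C, c, hC, hc, N₀, fun N hN => ?_⟩
  have h1 := h N hN
  rw [Nat.cast_one] at h1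
  refine le_trans ?_ h1
  have hfin : {D : Fin 1 → ℤ | (∀ j, D j ≠ 0 ∧ |D j| ≤ N) ∧ ∃ x : ℕ, (Real.log N) ^ C ≤ x ∧
        (x : ℝ) ≤ (N : ℝ) ^ c ∧ ∃ A B : Fin 1 → ℤ, (∀ j, |(A j : ℝ)| ≤ (x : ℝ) ^ κ ∧ |(B j : ℝ)| ≤ (x : ℝ) ^ κ) ∧
        ∃ q a : ℕ, q ≤ x ∧ a ≤ x ∧ ∃ R : Fin s × Fin 1 → Set ℝ, (∀ z, (R z).OrdConnected) ∧
        √(hitCount A B R (prog q a x) : ℝ) * (x : ℝ) ^ ε <
          |(boxCount (fun j => A j * D j ^ 2) (fun j => B j * D j ^ 3) R (prog q a x) : ℝ) -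
            boxMean A B R (prog q a x)|}.Finite := by
    refine (Set.Finite.pi' (t := fun _ : Fin 1 => Set.Icc (-(N : ℤ)) N) fun _ => Set.finite_Icc _ _).subset ?_
    rintro D ⟨hD, -⟩ i
    exact Set.mem_Icc.2 (abs_le.1 (hD i).2)
  apply Nat.cast_le.2
  rw [← Set.ncard_image_of_injective _ (f := fun (D : ℤ) (_ : Fin 1) => D) (fun a b hab => congrFun hab 0)]
  refine Set.ncard_le_ncard ?_ hfin
  rintro _ ⟨D, ⟨hD0, hDN, x, hx1, hx2, A, B, hAB, q, a, hq, ha, R, hR, hlt⟩, rfl⟩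
  exact ⟨fun _ => ⟨hD0, hDN⟩, x, hx1, hx2, fun _ => A, fun _ => B, fun _ => hAB, q, a, hq, ha, fun z => R z.1,
    fun z => hR z.1, hlt⟩

end Pool.Agent.Results.MP_29be01_nt.TwistsAtRealMultiples
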