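import Pool.Agent.Q233.TL.Ar

/-!
# Consecutive Frobenius angles of vectors of quadratic twists

For curves `E_j : y² = x³ + A_j x + B_j` (`j < k`), for almost all vectors `(D_1, …, D_k)` the `s × k` arrays
of the Frobenius angles of the twists `E_j^{D_j}` at `s` consecutive primes (or at `s` consecutive primes
of any residue class) are distributed, in all boxes, as the arrays of the angles of the `E_j` after
independent random reflections `θ ↦ 1 - θ`, with square root error.
-/

set_option autoImplicit false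

namespace Pool.Agent.Results.MP_29be01_nt.VectorsOfTwists

open Finset Pool.Agent.W406.TW Pool.Agent.Q233.TL Pool.Agent.Q233.TL.Tup

/-- all entries of `τ` are primes of good reduction for the models `y² = x³ + A_j x + B_j` -/
def GoodRed {s k : ℕ} (A B : Fin k → ℤ) (τ : Fin s → ℕ) : Prop :=
  ∀ i j, ¬ (τ i : ℤ) ∣ 4 * A j ^ 3 + 27 * B j ^ 2

/-- `y` or its reflection `1 - y` -/
noncomputable def refl (η : ℤ) (y : ℝ) : ℝ := if η = 1 then y else 1 - y

/-- the number of the `s`-tuples `τ` of consecutive elements of `P` (good for all curves) for which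
the angle `ang (A j) (B j) (τ i)` of the `j`-th curve at `τ i` is in `R (i, j)` for all `i, j` -/
noncomputable def boxCount {s k : ℕ} (A B : Fin k → ℤ) (R : Fin s × Fin k → Set ℝ) (P : Finset ℕ) : ℕ := by
  classical
  exact ((consec P s).filter fun τ => GoodRed A B τ ∧ ∀ z, ang (A z.2) (B z.2) (τ z.1) ∈ R z).card

/-- the number of tuples for which all angles are in the box after suitable reflections -/
noncomputable def hitCount {s k : ℕ} (A B : Fin k → ℤ) (R : Fin s × Fin k → Set ℝ) (P : Finset ℕ) : ℕ := by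
  classical
  exact ((consec P s).filter fun τ => GoodRed A B τ ∧ ∃ η ∈ Sgt s k,
    ∀ z, refl (η z) (ang (A z.2) (B z.2) (τ z.1)) ∈ R z).card

/-- the expected number of tuples in the box after random reflections of all the angles -/
noncomputable def boxMean {s k : ℕ} (A B : Fin k → ℤ) (R : Fin s × Fin k → Set ℝ) (P : Finset ℕ) : ℝ := by
  classical
  exact (∑ τ ∈ consec P s, (((Sgt s k).filter fun η => GoodRed A B τ ∧
    ∀ z, refl (η z) (ang (A z.2) (B z.2) (τ z.1)) ∈ R z).card : ℝ)) / 2 ^ (s * k)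

/-- predicate for the twist law -/
def Ev {s k : ℕ} (A B : Fin k → ℤ) (a b : Fin s × Fin k → ℕ) (τ : Fin s → ℕ)
    (η : Fin s × Fin k → ℤ) : Prop :=
  GoodRed A B τ ∧ ∀ z, W406.TW.val (ang (A z.2) (B z.2)) (a z) ≤ refl (η z) (ang (A z.2) (B z.2) (τ z.1)) ∧
    refl (η z) (ang (A z.2) (B z.2) (τ z.1)) ≤ W406.TW.val (ang (A z.2) (B z.2)) (b z)

theorem result (s k : ℕ) (hs : 0 < s) (κ ε : ℝ) (hκ : 0 ≤ κ) (hε : 0 < ε) :
    ∃ C c : ℝ, 0 < C ∧ 0 < c ∧ ∃ N₀ : ℕ, ∀ N : ℕ, N₀ ≤ N →
      ({D : Fin k → ℤ | (∀ j, D j ≠ 0 ∧ |D j| ≤ N) ∧ ∃ x : ℕ, (Real.log N) ^ C ≤ x ∧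
        (x : ℝ) ≤ (N : ℝ) ^ c ∧ ∃ A B : Fin k → ℤ, (∀ j, |(A j : ℝ)| ≤ (x : ℝ) ^ κ ∧ |(B j : ℝ)| ≤ (x : ℝ) ^ κ) ∧
        ∃ q a : ℕ, q ≤ x ∧ a ≤ x ∧ ∃ R : Fin s × Fin k → Set ℝ, (∀ z, (R z).OrdConnected) ∧
        √(hitCount A B R (prog q a x) : ℝ) * (x : ℝ) ^ ε <
          |(boxCount (fun j => A j * D j ^ 2) (fun j => B j * D j ^ 3) R (prog q a x) : ℝ) -
            boxMean A B R (prog q a x)|}.ncard : ℝ) ≤ (N : ℝ) ^ ((k : ℝ) - c) := by
  classical
  set M : ℝ := (κ + 1) * k + ((κ + 1) * k + (2 + (2 + (2 * (s * k : ℕ) + 2 * (s * k : ℕ))))) with hM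
  obtain ⟨C, c, hC, hc, N₀, h⟩ := Tup.law s k M ε (by positivity) hε 4
  refine ⟨C, c, hC, hc, N₀, fun N hN => ?_⟩
  refine le_trans ?_ (h N hN ((Fin k → ℤ) × (Fin k → ℤ) × ℕ × ℕ × (Fin s × Fin k → ℕ) × (Fin s × Fin k → ℕ))
    (fun x => (Fintype.piFinset fun _ : Fin k => ib κ x) ×ˢ (Fintype.piFinset fun _ : Fin k => ib κ x) ×ˢ
      (range (x + 1)) ×ˢ (range (x + 1)) ×ˢ
      (Fintype.piFinset fun _ : Fin s × Fin k => range (2 * (x + 1) + 2)) ×ˢ
      (Fintype.piFinset fun _ : Fin s × Fin k => range (2 * (x + 1) + 2)))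
    (fun l x => consec (prog l.2.2.1 l.2.2.2.1 x) s)
    (fun l => Ev l.1 l.2.1 l.2.2.2.2.1 l.2.2.2.2.2) ?_)
  · refine Nat.cast_le.2 (Set.ncard_le_ncard ?_ ?_)
    · rintro D ⟨hD, x, hx1, hx2, A, B, hAB, q, a, hq, ha, R, hR, hlt⟩
      have htr := fun z : Fin s × Fin k => trace (ang (A z.2) (B z.2)) (x + 1) (R z) (hR z)
      choose u v hu hv huv using htr
      have hag : ∀ τ ∈ consec (prog q a x) s, ∀ η : Fin s × Fin k → ℤ,
          (Ev A B u v τ η ↔ GoodRed A B τ ∧
            ∀ z, refl (η z) (ang (A z.2) (B z.2) (τ z.1)) ∈ R z) := by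
        intro τ hτ η
        unfold Ev
        refine and_congr_right fun _ => forall_congr' fun z => ?_
        have hle : τ z.1 < x + 1 := by
          have := (prog_ok _ (consec_mem hτ z.1)).2.2
          omega
        obtain ⟨h1, h2⟩ := huv z (τ z.1) hle
        unfold refl
        split_ifs
        · exact h1.symm
        · exact h2.symm
      refine ⟨hD, x, hx1, hx2, (A, B, q, a, u, v), ?_, ?_⟩
      · simp only [mem_product, Fintype.mem_piFinset, mem_range, mem_ib]
        exact ⟨fun j => (hAB j).1, fun j => (hAB j).2, by omega, by omega, hu, hv⟩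
      · have e1 : (Tup.X (Ev A B u v) (consec (prog q a x) s)).card = hitCount A B R (prog q a x) := by
          unfold Tup.X hitCount
          congr 1
          refine filter_congr fun τ hτ => ?_
          constructor
          · rintro ⟨η, hη, h1⟩
            have h2 := (hag τ hτ η).1 h1
            exact ⟨h2.1, η, hη, h2.2⟩
          · rintro ⟨h1, η, hη, h2⟩
            exact ⟨η, hη, (hag τ hτ η).2 ⟨h1, h2⟩⟩
        have e2 : Tup.mean (Ev A B u v) (consec (prog q a x) s) = boxMean A B R (prog q a x) := by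
          unfold Tup.mean boxMean
          congr 1
          refine sum_congr rfl fun τ hτ => ?_
          congr 2
          refine filter_congr fun η _ => ?_
          exact hag τ hτ η
        have e3 : Tup.cnt (Ev A B u v) (consec (prog q a x) s) D =
            boxCount (fun j => A j * D j ^ 2) (fun j => B j * D j ^ 3) R (prog q a x) := by
          unfold Tup.cnt boxCount
          congr 1
          refine filter_congr fun τ hτ => ?_
          have hp : ∀ i, (τ i).Prime ∧ τ i ≠ 2 := fun i =>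
            ⟨(prog_ok _ (consec_mem hτ i)).1, (prog_ok _ (consec_mem hτ i)).2.1⟩
          have hgr : GoodRed (fun j => A j * D j ^ 2) (fun j => B j * D j ^ 3) τ ↔
              (∀ i j, ¬ (τ i : ℤ) ∣ D j) ∧ GoodRed A B τ := by
            unfold GoodRed
            constructor
            · intro h1
              exact ⟨fun i j => ((disc_iff _ _ _ (hp i).1).1 (h1 i j)).1,
                fun i j => ((disc_iff _ _ _ (hp i).1).1 (h1 i j)).2⟩
            · rintro ⟨h1, h2⟩ i j
              exact (disc_iff _ _ _ (hp i).1).2 ⟨h1 i j, h2 i j⟩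
          have hang : (∀ i j, ¬ (τ i : ℤ) ∣ D j) → ∀ z : Fin s × Fin k,
              refl (sym D τ z) (ang (A z.2) (B z.2) (τ z.1)) =
                ang (A z.2 * D z.2 ^ 2) (B z.2 * D z.2 ^ 3) (τ z.1) := by
            intro h1 z
            unfold refl sym
            rcases jac_pm (hp z.1).1 (h1 z.1 z.2) with h2 | h2
            · rw [if_pos h2, ang_one _ _ _ (hp z.1).1 (hp z.1).2 h2]
            · rw [if_neg (by rw [h2]; decide), ang_neg _ _ _ (hp z.1).1 (hp z.1).2 h2]
          rw [hag τ hτ, hgr]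
          constructor
          · rintro ⟨h1, h2, h3⟩
            exact ⟨⟨h1, h2⟩, fun z => by rw [← hang h1 z]; exact h3 z⟩
          · rintro ⟨⟨h1, h2⟩, h3⟩
            exact ⟨h1, h2, fun z => by rw [hang h1 z]; exact h3 z⟩
        rw [e1, e2, e3]
        exact hlt
    · refine Set.Finite.subset (Set.Finite.pi (t := fun _ : Fin k => Set.Icc (-(N : ℤ)) N)
        (fun _ => Set.finite_Icc _ _)) ?_
      rintro D ⟨hD, _⟩ j _
      exact abs_le.1 (hD j).2
  · intro x hx
    refine ⟨?_, fun l _ => good_consec hs prog_ok⟩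
    have hx4 : (4 : ℝ) ≤ x := by exact_mod_cast hx
    have hx0 : (0 : ℝ) < x := by linarith
    have hr : (((range (x + 1)).card : ℕ) : ℝ) ≤ (x : ℝ) ^ (2 : ℝ) := by
      rw [card_range, Real.rpow_two]
      push_cast
      nlinarith
    have hv := card_vec (Fin k) κ hκ x hx
    have ha := card_arrays (Fin s × Fin k) x hx
    rw [Fintype.card_fin] at hv
    rw [Fintype.card_prod, Fintype.card_fin, Fintype.card_fin] at ha
    simp only [card_product, Nat.cast_mul]
    rw [hM, Real.rpow_add hx0, Real.rpow_add hx0, Real.rpow_add hx0, Real.rpow_add hx0, Real.rpow_add hx0]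
    have hpos : ∀ y : ℝ, 0 ≤ (x : ℝ) ^ y := fun y => by positivity
    refine mul_le_mul hv (mul_le_mul hv (mul_le_mul hr (mul_le_mul hr (mul_le_mul ha ha ?_ ?_) ?_ ?_)
      ?_ ?_) ?_ ?_) ?_ ?_ <;> positivity

end Pool.Agent.Results.MP_29be01_nt.VectorsOfTwists
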